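import Pool.Agent.H294ZP.Padic

namespace H294ZP

/-- Task TG: if `F_m ≡ x_m` modulo a prime `l` for all `m < c ≤ n`, then the system
`F_0 = ... = F_(c-1) = 0` has a solution in `ℂ^n`. -/
def TaskTG : Prop := ∀ (n c d l : ℕ), 0 < d → c ≤ n → l.Prime →
  ∀ F : Fin c → (Fin n → Fin (d + 1)) → ℤ,
    (∀ m e, (l : ℤ) ∣ F m e -
      (if ∀ i : Fin n, (e i : ℕ) = (if (i : ℕ) = (m : ℕ) then 1 else 0) then 1 else 0)) →
    ∃ x : Fin n → ℂ, ∀ m, evalP (F m) x = 0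

end H294ZP
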