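import Pool.Agent.H294ZP.Crit
import Pool.Agent.H294ZP.Stmts2

/-!
# Zilber-Pink for Y(1)^n (MP_d83ecd_ag): counting and assembly
-/

open UpperHalfPlane Function

namespace H294ZP

theorem box_finite {α β : Type} [Fintype α] [Fintype β] (H : ℕ) :
    {F : α → β → ℤ | ∀ m e, |F m e| ≤ H}.Finite := by
  classical
  apply Set.Finite.subset
    (Fintype.piFinset (fun _ : α => Fintype.piFinset (fun _ : β =>
      Finset.Icc (-(H : ℤ)) H))).finite_toSet
  intro F hF
  simp only [Finset.mem_coe, Fintype.mem_piFinset, Finset.mem_Icc]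
  intro m e
  exact abs_le.1 (hF m e)

theorem count_aux {α β : Type} [Fintype α] [Fintype β] (Q : ℕ) (hQ : 0 < Q) (a : α → β → ℤ)
    (H : ℕ) : ((2 * H + 1) / Q) ^ (Fintype.card α * Fintype.card β) ≤
      {F : α → β → ℤ | (∀ m e, |F m e| ≤ H) ∧ ∀ m e, (Q : ℤ) ∣ F m e - a m e}.ncard := by
  classical
  set t := (2 * H + 1) / Q with ht
  let Φ : (α → β → Fin t) → (α → β → ℤ) := fun u m e =>
    -(H : ℤ) + (a m e + H) % Q + Q * ((u m e : ℕ) : ℤ)
  have hQ' : (0 : ℤ) < Q := by exact_mod_cast hQ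
  have hinj : Injective Φ := by
    intro u u' h
    funext m e
    have h1 := congrFun (congrFun h m) e
    simp only [Φ] at h1
    have h2 : (Q : ℤ) * ((u m e : ℕ) : ℤ) = Q * ((u' m e : ℕ) : ℤ) := by linarith
    have h3 := mul_left_cancel₀ hQ'.ne' h2
    apply Fin.ext
    exact_mod_cast h3
  have hsub : Set.range Φ ⊆
      {F : α → β → ℤ | (∀ m e, |F m e| ≤ H) ∧ ∀ m e, (Q : ℤ) ∣ F m e - a m e} := by
    rintro F ⟨u, rfl⟩
    constructor
    · intro m e
      simp only [Φ]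
      have h1 := Int.emod_nonneg (a m e + H) hQ'.ne'
      have h2 := Int.emod_lt_of_pos (a m e + H) hQ'
      have h3 : ((u m e : ℕ) : ℤ) + 1 ≤ t := by exact_mod_cast (u m e).2
      have h4 : (0 : ℤ) ≤ ((u m e : ℕ) : ℤ) := by positivity
      have h5 : (Q : ℤ) * t ≤ 2 * H + 1 := by
        have : Q * t ≤ 2 * H + 1 := Nat.mul_div_le _ _
        exact_mod_cast this
      have h6 : (Q : ℤ) * (((u m e : ℕ) : ℤ) + 1) ≤ Q * t := by
        exact mul_le_mul_of_nonneg_left h3 hQ'.le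
      have h7 : (0 : ℤ) ≤ Q * ((u m e : ℕ) : ℤ) := by positivity
      rw [abs_le]
      constructor <;> nlinarith
    · intro m e
      simp only [Φ]
      have h1 := Int.emod_add_mul_ediv (a m e + H) Q
      refine ⟨((u m e : ℕ) : ℤ) - (a m e + H) / Q, ?_⟩
      linear_combination h1
  have hfin : {F : α → β → ℤ | (∀ m e, |F m e| ≤ H) ∧ ∀ m e, (Q : ℤ) ∣ F m e - a m e}.Finite :=
    (box_finite H).subset (fun F hF => hF.1)
  calc t ^ (Fintype.card α * Fintype.card β) = Nat.card (α → β → Fin t) := by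
        rw [Nat.card_eq_fintype_card]
        simp only [Fintype.card_fun, Fintype.card_fin]
        rw [← pow_mul, mul_comm]
    _ = (Set.range Φ).ncard := by
        rw [← Set.image_univ, Set.ncard_image_of_injective _ hinj, Set.ncard_univ]
    _ ≤ _ := Set.ncard_le_ncard hsub hfin

/-- Zilber-Pink for a positive proportion of complete intersections in `Y(1)^n`. -/
theorem final (hTD : TD) (hTE : TE) (hTG : TaskTG) (n c d : ℕ) (hc : 0 < c) (hd : 0 < d) :
    ∃ δ : ℝ, 0 < δ ∧ ∃ H₀ : ℕ, ∀ H : ℕ, H₀ ≤ H →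
      δ * (2 * H + 1) ^ (c * (d + 1) ^ n) ≤
        ({F : Fin c → (Fin n → Fin (d + 1)) → ℤ | (∀ m e, |F m e| ≤ H) ∧
          (c ≤ n → ∃ x : Fin n → ℂ, ∀ m, evalP (F m) x = 0) ∧ NoAtypical F}.ncard : ℝ) := by
  classical
  obtain ⟨k, rfl⟩ : ∃ k, c = k + 1 := ⟨c - 1, by omega⟩
  let ι := Option (Fin n → Option (Fin k))
  let P : ι → ℕ := fun i => Nat.nth Nat.Prime (Fintype.equivFin ι i)
  have hPprime : ∀ i, (P i).Prime := fun i => Nat.prime_nth_prime _
  have hPinj : Injective P := by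
    intro i i' h
    have h1 := Nat.nth_injective Nat.infinite_setOf_prime h
    exact (Fintype.equivFin ι).injective (Fin.ext h1)
  let t : ι → Fin (k + 1) → (Fin n → Fin (d + 1)) → ℕ := fun i m e =>
    match i with
    | none => if ∀ i : Fin n, (e i : ℕ) = (if (i : ℕ) = (m : ℕ) then 1 else 0) then 1 else 0
    | some lam => ((Finset.univ : Finset (Finset (Fin k))).filter
        (fun T => T.card = (m : ℕ) ∧ expo lam T = e)).card
  have hcop : Set.Pairwise ((Finset.univ : Finset ι) : Set ι) (Nat.Coprime on P) := by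
    intro i _ i' _ hne
    exact (Nat.coprime_primes (hPprime i) (hPprime i')).2 (fun h => hne (hPinj h))
  have ha : ∀ m e, ∃ a : ℕ, ∀ i, a ≡ t i m e [MOD P i] := by
    intro m e
    obtain ⟨a, ha⟩ := Nat.chineseRemainderOfFinset (fun i => t i m e) P Finset.univ
      (fun i _ => (hPprime i).ne_zero) hcop
    exact ⟨a, fun i => ha i (Finset.mem_univ i)⟩
  choose a ha using ha
  set Q : ℕ := ∏ i, P i with hQdef
  have hQ : 0 < Q := Finset.prod_pos (fun i _ => (hPprime i).pos)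
  set M : ℕ := (k + 1) * (d + 1) ^ n with hM
  refine ⟨(1 / (2 * Q)) ^ M, by positivity, Q, ?_⟩
  intro H hH
  have h1 := count_aux Q hQ (fun (m : Fin (k + 1)) (e : Fin n → Fin (d + 1)) => ((a m e : ℕ) : ℤ)) H
  have hcard : Fintype.card (Fin (k + 1)) * Fintype.card (Fin n → Fin (d + 1)) = M := by
    simp [hM]
  rw [hcard] at h1
  have hsub : {F : Fin (k + 1) → (Fin n → Fin (d + 1)) → ℤ | (∀ m e, |F m e| ≤ H) ∧
      ∀ m e, (Q : ℤ) ∣ F m e - ((a m e : ℕ) : ℤ)} ⊆
      {F : Fin (k + 1) → (Fin n → Fin (d + 1)) → ℤ | (∀ m e, |F m e| ≤ H) ∧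
          (k + 1 ≤ n → ∃ x : Fin n → ℂ, ∀ m, evalP (F m) x = 0) ∧ NoAtypical F} := by
    rintro F ⟨hF1, hF2⟩
    have hF3 : ∀ i m e, ((P i : ℕ) : ℤ) ∣ F m e - ((t i m e : ℕ) : ℤ) := by
      intro i m e
      have h2 : ((P i : ℕ) : ℤ) ∣ (Q : ℤ) := by
        rw [hQdef]
        exact_mod_cast Finset.dvd_prod_of_mem P (Finset.mem_univ i)
      have h3 := h2.trans (hF2 m e)
      have h4 : ((P i : ℕ) : ℤ) ∣ ((a m e : ℕ) : ℤ) - ((t i m e : ℕ) : ℤ) := by
        have h5 : ((t i m e : ℕ) : ℤ) ≡ ((a m e : ℕ) : ℤ) [ZMOD (P i : ℕ)] :=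
          (Int.natCast_modEq_iff.2 (ha m e i)).symm
        exact h5.dvd
      have h5 := dvd_add h3 h4
      have h6 : F m e - ((a m e : ℕ) : ℤ) + (((a m e : ℕ) : ℤ) - ((t i m e : ℕ) : ℤ)) =
        F m e - ((t i m e : ℕ) : ℤ) := by ring
      rwa [h6] at h5
    refine ⟨hF1, ?_, ?_⟩
    · intro hcn
      apply hTG n (k + 1) d (P none) hd hcn (hPprime none) F
      intro m e
      have := hF3 none m e
      simp only [t] at this
      push_cast at this
      exact this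
    · apply criterion hTD hTE hd F
      intro lam
      exact ⟨P (some lam), hPprime _, fun m e => hF3 (some lam) m e⟩
  have hfin : {F : Fin (k + 1) → (Fin n → Fin (d + 1)) → ℤ | (∀ m e, |F m e| ≤ H) ∧
          (k + 1 ≤ n → ∃ x : Fin n → ℂ, ∀ m, evalP (F m) x = 0) ∧ NoAtypical F}.Finite :=
    (box_finite H).subset (fun F hF => hF.1)
  have h2 := h1.trans (Set.ncard_le_ncard hsub hfin)
  have hQR : (0 : ℝ) < Q := by exact_mod_cast hQ
  have h3 : 1 / (2 * (Q : ℝ)) * (2 * H + 1) ≤ (((2 * H + 1) / Q : ℕ) : ℝ) := by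
    have h4 : ((2 * H + 1 : ℕ) : ℝ) / Q < (((2 * H + 1) / Q : ℕ) : ℝ) + 1 := by
      have := Nat.lt_floor_add_one (((2 * H + 1 : ℕ) : ℝ) / Q)
      rwa [Nat.floor_div_eq_div] at this
    have h5 : (1 : ℝ) ≤ ((2 * H + 1 : ℕ) : ℝ) / Q / 2 := by
      rw [le_div_iff₀ (by norm_num), le_div_iff₀ hQR]
      push_cast
      have : (Q : ℝ) ≤ H := by exact_mod_cast hH
      linarith
    have h6 : 1 / (2 * (Q : ℝ)) * (2 * H + 1) = ((2 * H + 1 : ℕ) : ℝ) / Q / 2 := by
      push_cast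
      field_simp
    rw [h6]
    linarith
  calc (1 / (2 * (Q : ℝ))) ^ M * (2 * H + 1) ^ M
      = (1 / (2 * (Q : ℝ)) * (2 * H + 1)) ^ M := (mul_pow _ _ _).symm
    _ ≤ ((((2 * H + 1) / Q : ℕ)) : ℝ) ^ M := by
        apply pow_le_pow_left₀ (by positivity) h3
    _ = ((((2 * H + 1) / Q) ^ M : ℕ) : ℝ) := by push_cast; rfl
    _ ≤ _ := by exact_mod_cast h2

end H294ZP
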