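import Pool.Agent.H294ZP.Padic

/-!
# Zilber-Pink for Y(1)^n (MP_d83ecd_ag): special subvarieties and the criterion
-/

open UpperHalfPlane Function

namespace H294ZP

/-- The data of a special subvariety of `Y(1)^n` of dimension `r`: a map `cls` from the
coordinates onto `r` classes (`none` for constant coordinates), an integral matrix of positive
determinant for each coordinate, a CM point for each coordinate. -/
structure SpecialDatum (n r : ℕ) where
  cls : Fin n → Option (Fin r)
  surj : ∀ k : Fin r, ∃ i, cls i = some k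
  mat : Fin n → Matrix (Fin 2) (Fin 2) ℤ
  det_pos : ∀ i, 0 < (mat i).det
  cm : Fin n → ℍ
  isCM : ∀ i, IsCM (cm i)

/-- The special subvariety: constant coordinates are the singular moduli `j (cm i)`, the other
coordinates are `j (g_i z_k)`, where `k` is the class of `i` and `z_k` is a free parameter in the
upper half plane. -/
def SpecialDatum.locus {n r : ℕ} (Z : SpecialDatum n r) : Set (Fin n → ℂ) :=
  {x | ∃ z : Fin r → ℍ, ∀ i,
    (Z.cls i = none → x i = jj (Z.cm i)) ∧
    (∀ k, Z.cls i = some k → ∃ w : ℍ,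
      (w : ℂ) * (Z.mat i 1 0 * z k + Z.mat i 1 1) = Z.mat i 0 0 * z k + Z.mat i 0 1 ∧
      x i = jj w)}

theorem denom_ne {z : ℍ} {a b c d : ℤ} (h : 0 < a * d - b * c) : (c : ℂ) * (z : ℂ) + d ≠ 0 := by
  intro h0
  have him := congrArg Complex.im h0
  have hre := congrArg Complex.re h0
  simp only [Complex.add_im, Complex.mul_im, Complex.intCast_re, Complex.intCast_im,
    Complex.add_re, Complex.mul_re, Complex.zero_im, Complex.zero_re, zero_mul, add_zero,
    sub_zero] at him hre
  have hz : 0 < (z : ℂ).im := z.im_pos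
  have hc : (c : ℝ) = 0 := by
    rcases mul_eq_zero.1 him with h1 | h1
    · exact h1
    · exact absurd h1 hz.ne'
  rw [hc, zero_mul, zero_add] at hre
  have hc' : c = 0 := by exact_mod_cast hc
  have hd' : d = 0 := by exact_mod_cast hre
  rw [hc', hd'] at h
  simp at h

/-- Coordinates of the same class are related by an isogeny. -/
theorem rel_of_class (hTD : TD) {n r : ℕ} (Z : SpecialDatum n r) {x : Fin n → ℂ}
    (hx : x ∈ Z.locus) {i i' : Fin n} {k : Fin r} (hi : Z.cls i = some k)
    (hi' : Z.cls i' = some k) : IsIntegral (Algebra.adjoin ℤ {x i}) (x i') := by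
  obtain ⟨z, hz⟩ := hx
  obtain ⟨w, hw, hxw⟩ := (hz i).2 k hi
  obtain ⟨w', hw', hxw'⟩ := (hz i').2 k hi'
  rw [hxw, hxw']
  have hdet := Z.det_pos i
  have hdet' := Z.det_pos i'
  rw [Matrix.det_fin_two] at hdet hdet'
  set a := Z.mat i 0 0
  set b := Z.mat i 0 1
  set c := Z.mat i 1 0
  set d := Z.mat i 1 1
  set a' := Z.mat i' 0 0
  set b' := Z.mat i' 0 1
  set c' := Z.mat i' 1 0
  set d' := Z.mat i' 1 1
  have hn := denom_ne (z := z k) hdet
  apply hTD w w' (a' * d - b' * c) (-(a' * b) + b' * a) (c' * d - d' * c) (-(c' * b) + d' * a)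
  · have : (a' * d - b' * c) * (-(c' * b) + d' * a) - (-(a' * b) + b' * a) * (c' * d - d' * c) =
        (a * d - b * c) * (a' * d' - b' * c') := by ring
    rw [this]
    exact mul_pos hdet hdet'
  · have key : (w' : ℂ) * (((c' * d - d' * c : ℤ) : ℂ) * w + ((-(c' * b) + d' * a : ℤ) : ℂ)) *
        ((c : ℂ) * z k + d) =
        (((a' * d - b' * c : ℤ) : ℂ) * w + ((-(a' * b) + b' * a : ℤ) : ℂ)) *
        ((c : ℂ) * z k + d) := by
      push_cast
      linear_combination ((w' : ℂ) * ((c' : ℂ) * d - d' * c) - ((a' : ℂ) * d - b' * c)) * hw +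
        ((a : ℂ) * d - b * c) * hw'
    exact mul_right_cancel₀ hn key

/-- integrality and valuation rings -/
theorem mem_of_integral (B : ValuationSubring ℂ) {a b : ℂ} (ha : a ∈ B)
    (h : IsIntegral (Algebra.adjoin ℤ {a}) b) : b ∈ B := by
  obtain ⟨p, hp, hpe⟩ := h
  have hle : ∀ y ∈ Algebra.adjoin ℤ {a}, y ∈ B := by
    intro y hy
    induction hy using Algebra.adjoin_induction with
    | mem t ht => rw [Set.mem_singleton_iff] at ht; rw [ht]; exact ha
    | algebraMap t => exact intCast_mem B t
    | add s t _ _ hs ht => exact B.add_mem _ _ hs ht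
    | mul s t _ _ hs ht => exact B.mul_mem _ _ hs ht
  let φ : Algebra.adjoin ℤ {a} →+* B :=
    { toFun := fun y => ⟨y, hle y y.2⟩
      map_one' := rfl
      map_mul' := fun _ _ => rfl
      map_zero' := rfl
      map_add' := fun _ _ => rfl }
  have hB : IsIntegral B b := by
    refine ⟨p.map φ, hp.map φ, ?_⟩
    rw [Polynomial.eval₂_map]
    exact hpe
  obtain ⟨y, hy⟩ := IsIntegrallyClosed.isIntegral_iff.1 hB
  rw [← hy]
  exact y.2

theorem mem_of_integral_int (B : ValuationSubring ℂ) {b : ℂ} (h : IsIntegral ℤ b) : b ∈ B := by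
  have hB : IsIntegral B b := h.tower_top
  obtain ⟨y, hy⟩ := IsIntegrallyClosed.isIntegral_iff.1 hB
  rw [← hy]
  exact y.2

/-- The property: no atypical intersections. -/
def NoAtypical {n c d : ℕ} (F : Fin c → (Fin n → Fin (d + 1)) → ℤ) : Prop :=
  ∀ (r : ℕ) (Z : SpecialDatum n r) (x : Fin n → ℂ), x ∈ Z.locus → (∀ m, evalP (F m) x = 0) →
    ∀ S : Finset (Fin n), AlgebraicIndependent ℚ (fun i : S => x i) → S.card + c ≤ r

/-- The criterion. -/
theorem criterion (hTD : TD) (hTE : TE) {n k d : ℕ} (hd : 0 < d)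
    (F : Fin (k + 1) → (Fin n → Fin (d + 1)) → ℤ)
    (hF : ∀ lam : Fin n → Option (Fin k), ∃ p : ℕ, p.Prime ∧ CongAt p lam F) :
    NoAtypical F := by
  classical
  intro r Z x hx h0 S hS
  by_contra hcon
  push Not at hcon
  -- constant coordinates are algebraic integers
  have hconst : ∀ i, Z.cls i = none → IsIntegral ℤ (x i) := by
    intro i hi
    obtain ⟨z, hz⟩ := hx
    rw [(hz i).1 hi]
    exact hTE _ (Z.isCM i)
  have hSnone : ∀ i ∈ S, Z.cls i ≠ none := by
    intro i hi hn
    have h1 := hS.transcendental ⟨i, hi⟩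
    apply h1
    have h2 : IsAlgebraic ℤ (x i) := (hconst i hn).isAlgebraic
    exact h2.extendScalars (R := ℤ) (S := ℚ) (Int.cast_injective (α := ℚ))
  have hSinj : ∀ i ∈ S, ∀ i' ∈ S, Z.cls i = Z.cls i' → i = i' := by
    intro i hi i' hi' he
    by_contra hne
    obtain ⟨k', hk⟩ := Option.ne_none_iff_exists'.1 (hSnone i hi)
    have hrel := rel_of_class hTD Z hx hk (he ▸ hk)
    have hSZ : AlgebraicIndependent ℤ (fun i : S => x i) :=
      hS.restrictScalars (Int.cast_injective (α := ℚ))
    have h1 := hSZ.transcendental_adjoin (s := {⟨i, hi⟩}) (i := ⟨i', hi'⟩)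
      (by
        intro h
        rw [Set.mem_singleton_iff, Subtype.mk.injEq] at h
        exact hne h.symm)
    apply h1
    rw [Set.image_singleton]
    exact hrel.isAlgebraic
  -- the classes hit by S
  have hget : ∀ i : Fin n, ∃ c : Option (Fin r), Z.cls i = c := fun i => ⟨_, rfl⟩
  let Hs : Finset (Option (Fin r)) := S.image Z.cls
  have hHs : Hs.card = S.card := by
    apply Finset.card_image_of_injOn
    intro i hi i' hi' he
    exact hSinj i hi i' hi' he
  let Cc : Finset (Fin r) := Finset.univ.filter (fun c => some c ∉ Hs)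
  have hCc : Cc.card ≤ k := by
    let Hc : Finset (Fin r) := Finset.univ.filter (fun c => some c ∈ Hs)
    have h1 : Hc.card + Cc.card = r := by
      have := Finset.card_filter_add_card_filter_not (s := (Finset.univ : Finset (Fin r)))
        (fun c => some c ∈ Hs)
      simpa using this
    have h2 : Hs = Hc.image some := by
      ext c
      simp only [Hs, Hc, Finset.mem_image, Finset.mem_filter, Finset.mem_univ, true_and]
      constructor
      · rintro ⟨i, hi, rfl⟩
        obtain ⟨c', hc'⟩ := Option.ne_none_iff_exists'.1 (hSnone i hi)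
        exact ⟨c', ⟨i, hi, hc'⟩, hc'.symm⟩
      · rintro ⟨c', ⟨i, hi, hc'⟩, rfl⟩
        exact ⟨i, hi, hc'⟩
    have h3 : Hs.card = Hc.card := by
      rw [h2]
      exact Finset.card_image_of_injective _ (Option.some_injective _)
    omega
  let lam : Fin n → Option (Fin k) := fun i =>
    match Z.cls i with
    | none => none
    | some c => if h : c ∈ Cc then some (Fin.castLE hCc (Cc.equivFin ⟨c, h⟩)) else none
  obtain ⟨p, hp, hcong⟩ := hF lam
  obtain ⟨B, hBp, hBx⟩ := exists_val (fun i : S => x i) hS hp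
  have hlam_none : ∀ i, lam i = none → x i ∈ B := by
    intro i hi
    cases hc : Z.cls i with
    | none => exact mem_of_integral_int B (hconst i hc)
    | some c =>
      simp only [lam, hc] at hi
      split_ifs at hi with hmem
      simp only [Cc, Finset.mem_filter, Finset.mem_univ, true_and, not_not, Hs,
        Finset.mem_image] at hmem
      obtain ⟨i0, hi0, hci0⟩ := hmem
      exact mem_of_integral B (hBx ⟨i0, hi0⟩) (rel_of_class hTD Z hx hci0 hc)
  have hlam_cl : ∀ i i' j, lam i = some j → lam i' = some j → x i ∈ B → x i' ∈ B := by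
    intro i i' j hi hi' hxi
    cases hc : Z.cls i with
    | none => simp [lam, hc] at hi
    | some c =>
      cases hc' : Z.cls i' with
      | none => simp [lam, hc'] at hi'
      | some c' =>
        simp only [lam, hc] at hi
        simp only [lam, hc'] at hi'
        split_ifs at hi with h1
        split_ifs at hi' with h2
        have h3 : Fin.castLE hCc (Cc.equivFin ⟨c, h1⟩) = Fin.castLE hCc (Cc.equivFin ⟨c', h2⟩) :=
          Option.some_injective _ (hi.trans hi'.symm)
        have h4 := Cc.equivFin.injective (Fin.castLE_injective hCc h3)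
        rw [Subtype.mk.injEq] at h4
        subst h4
        exact mem_of_integral B hxi (rel_of_class hTD Z hx hc hc')
  obtain ⟨m, hm⟩ := dominate hd p lam F hcong B hBp x hlam_none hlam_cl
  exact hm (h0 m)

end H294ZP
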