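import Pool.Agent.H294ZP.Stmts

open UpperHalfPlane ModularForm Function MatrixGroups

namespace H294ZP

theorem exists_smul_eq {a b c d : ℤ} (h : a * d - b * c = 1) {τ w : ℍ}
    (hw : (w : ℂ) * (c * τ + d) = a * τ + b) :
    ∃ γ : SL(2, ℤ), w = γ • τ ∧ denom γ τ ≠ 0 := by
  let γ : SL(2, ℤ) := ⟨!![a, b; c, d], by rw [Matrix.det_fin_two_of]; exact h⟩
  refine ⟨γ, ?_, denom_ne_zero _ τ⟩
  have hne : (c : ℂ) * τ + d ≠ 0 := by
    have := denom_ne_zero (γ : GL (Fin 2) ℝ) τ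
    rw [ModularGroup.denom_apply] at this
    simpa [γ] using this
  apply UpperHalfPlane.ext
  rw [coe_specialLinearGroup_apply]
  have h2 : ((w : ℂ)) = (a * τ + b) / (c * τ + d) := by
    rw [eq_div_iff hne]; exact hw
  rw [h2]
  simp [γ]

theorem inv_jj : Inv jj := by
  intro a b c d hdet τ w hw
  obtain ⟨γ, rfl, hd⟩ := exists_smul_eq hdet hw
  have h4 : E₄ (γ • τ) = (denom γ τ) ^ (4 : ℤ) * E₄ τ :=
    SlashInvariantForm.slash_action_eqn' E₄ (MonoidHom.mem_range.mpr ⟨γ, rfl⟩) τ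
  have h12 : discriminant (γ • τ) = (denom γ τ) ^ (12 : ℤ) * discriminant τ := by
    have := SlashInvariantForm.slash_action_eqn' CuspForm.discriminant
      (MonoidHom.mem_range.mpr ⟨γ, rfl⟩) τ
    exact this
  have hΔ := discriminant_ne_zero τ
  unfold jj
  rw [h4, h12, mul_pow, ← zpow_natCast, ← zpow_mul]
  norm_num
  rw [mul_div_mul_left]
  exact pow_ne_zero _ hd

theorem hol_jj : Hol jj := by
  have h4 := UpperHalfPlane.mdifferentiable_iff.mp (E₄).holo'
  have h12 := UpperHalfPlane.mdifferentiable_iff.mp (CuspForm.discriminant).holo'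
  unfold Hol
  have : (jj ∘ ofComplex) = fun z => ((E₄ : ℍ → ℂ) ∘ ofComplex) z ^ 3 / (discriminant ∘ ofComplex) z := by
    ext z; rfl
  rw [this]
  exact (h4.pow 3).div h12 (fun z _ => discriminant_ne_zero _)

/-- Task TA1. -/
theorem ta1 : TaskTA1 := ⟨inv_jj, hol_jj⟩

end H294ZP
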