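import Mathlib

/-!
# Zilber-Pink for Y(1)^n (MP_d83ecd_ag): definitions and task statements (H294-ZP)
-/

open UpperHalfPlane ModularForm Function

namespace H294ZP

/-- The elliptic modular function `j = E₄³ / Δ`. -/
noncomputable def jj (τ : ℍ) : ℂ := E₄ τ ^ 3 / discriminant τ

/-- `q^(1/N) = exp (2 π i τ / N)`. -/
noncomputable def qq (N : ℕ) (τ : ℍ) : ℂ := Complex.exp (2 * Real.pi * Complex.I * τ / N)

/-- `f` is invariant under `SL(2, ℤ)`. -/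
def Inv (f : ℍ → ℂ) : Prop :=
  ∀ (a b c d : ℤ), a * d - b * c = 1 → ∀ τ w : ℍ,
    (w : ℂ) * (c * τ + d) = a * τ + b → f w = f τ

/-- holomorphic on the upper half plane -/
def Hol (f : ℍ → ℂ) : Prop := DifferentiableOn ℂ (f ∘ ofComplex) {z | 0 < z.im}

/-- `f = T^(-m) * (A + c_1 T + c_2 T^2 + ...)` with `T = q^(1/N)`, converging on the whole upper
half plane, with coefficients algebraic integers. -/
def Lau (N m : ℕ) (A : ℂ) (f : ℍ → ℂ) : Prop :=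
  ∃ c : ℕ → ℂ, c 0 = A ∧ (∀ n, IsIntegral ℤ (c n)) ∧
    ∀ τ : ℍ, HasSum (fun n => c n * qq N τ ^ n) (qq N τ ^ m * f τ)

/-- TA: basic facts about `j`. -/
def TA : Prop := Inv jj ∧ Hol jj ∧ Lau 1 1 1 jj

/-- TB: invariant functions with a pole at infinity are polynomials in `j`. -/
def TB : Prop := ∀ (N : ℕ), 0 < N → ∀ (m : ℕ) (A : ℂ) (f : ℍ → ℂ), Inv f → Hol f → Lau N m A f →
  ∃ P : Polynomial ℂ, (∀ k, IsIntegral ℤ (P.coeff k)) ∧ (∀ τ, f τ = P.eval (jj τ)) ∧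
    (A ≠ 0 → N ∣ m) ∧ P.natDegree ≤ m / N ∧ (N ∣ m → P.coeff (m / N) = A)

/-- TC: closure properties of `Lau` and the expansion of `j ((a τ + b) / d)`. -/
def TC : Prop :=
  (∀ (N : ℕ) (A : ℂ), 0 < N → IsIntegral ℤ A → Lau N 0 A (fun _ => A)) ∧
  (∀ (N m k : ℕ) (A : ℂ) (f : ℍ → ℂ), 0 < N → 0 < k → Lau N m A f → Lau N (m + k) 0 f) ∧
  (∀ (N m : ℕ) (A B : ℂ) (f g : ℍ → ℂ), 0 < N → Lau N m A f → Lau N m B g →
    Lau N m (A + B) (fun τ => f τ + g τ)) ∧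
  (∀ (N m k : ℕ) (A B : ℂ) (f g : ℍ → ℂ), 0 < N → Lau N m A f → Lau N k B g →
    Lau N (m + k) (A * B) (fun τ => f τ * g τ)) ∧
  (Hol jj → Lau 1 1 1 jj → ∀ (a d : ℕ) (b : ℤ), 0 < a → 0 < d → ∀ h : ℍ → ℍ,
    (∀ τ, (h τ : ℂ) * d = a * τ + b) →
    Lau (a * d) (a ^ 2) (Complex.exp (- (2 * Real.pi * Complex.I * b / d))) (fun τ => jj (h τ)) ∧
    Hol (fun τ => jj (h τ)))

/-- TD: `j (g τ)` is integral over `ℤ[j τ]`. -/
def TD : Prop := ∀ (τ w : ℍ) (a b c d : ℤ), 0 < a * d - b * c →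
  (w : ℂ) * (c * τ + d) = a * τ + b → IsIntegral (Algebra.adjoin ℤ {jj τ}) (jj w)

/-- CM points. -/
def IsCM (τ : ℍ) : Prop := ∃ a b c : ℤ, a ≠ 0 ∧ (a : ℂ) * (τ : ℂ) ^ 2 + b * τ + c = 0

/-- TE: singular moduli are algebraic integers. -/
def TE : Prop := ∀ τ : ℍ, IsCM τ → IsIntegral ℤ (jj τ)

/-- TF: for `N ≥ 1` the functions `j ∘ g`, `g` running through a system of representatives of the
classes `SL(2, ℤ) \ {integral matrices of determinant N}`: a finite family of functions, permuted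
by `SL(2, ℤ)`. -/
def TF : Prop := ∀ N : ℕ, 0 < N → ∃ (ι : Type) (_ : Fintype ι) (_ : DecidableEq ι)
  (a d : ι → ℕ) (b : ι → ℤ) (h : ι → ℍ → ℍ),
  (∀ k, 0 < a k ∧ 0 < d k ∧ a k * d k = N) ∧
  (∀ k τ, (h k τ : ℂ) * d k = a k * τ + b k) ∧
  (∀ (p q r s : ℤ), p * s - q * r = 1 → ∀ τ w : ℍ, (w : ℂ) * (r * τ + s) = p * τ + q →
    ∃ σ : Equiv.Perm ι, ∀ k, jj (h k w) = jj (h (σ k) τ)) ∧
  (∀ (p q r s : ℤ), p * s - q * r = N → ∀ τ w : ℍ, (w : ℂ) * (r * τ + s) = p * τ + q →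
    ∃ k, jj w = jj (h k τ))

/-- Task TA1. -/
def TaskTA1 : Prop := Inv jj ∧ Hol jj
/-- Task TA2. -/
def TaskTA2 : Prop := Lau 1 1 1 jj
/-- Task TB. -/
def TaskTB : Prop := TA → TC → TB
/-- Task TC. -/
def TaskTC : Prop := TC
/-- Task TF. -/
def TaskTF : Prop := Inv jj → TF
/-- Task TD. -/
def TaskTD : Prop := TA → TB → TC → TF → TD
/-- Task TE. -/
def TaskTE : Prop := TA → TB → TC → TF → TE

end H294ZP
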