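import Pool.Agent.H294ZP.Stmts

/-! Task TD of H294-ZP (helper782): `j (g τ)` is integral over `ℤ[j τ]`. -/

open UpperHalfPlane ModularForm Function

namespace H294ZP

namespace TDaux

theorem Hol.const (A : ℂ) : Hol (fun _ => A) := by
  unfold Hol
  exact differentiableOn_const A

theorem Hol.add {f g : ℍ → ℂ} (hf : Hol f) (hg : Hol g) : Hol (fun τ => f τ + g τ) :=
  DifferentiableOn.add hf hg

theorem Hol.mul {f g : ℍ → ℂ} (hf : Hol f) (hg : Hol g) : Hol (fun τ => f τ * g τ) :=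
  DifferentiableOn.mul hf hg

/-- the functions with a `Lau` expansion of some order -/
def Lx (N : ℕ) (f : ℍ → ℂ) : Prop := (∃ (m : ℕ) (A : ℂ), Lau N m A f) ∧ Hol f

theorem Lx.const (hC : TC) {N : ℕ} (hN : 0 < N) {A : ℂ} (hA : IsIntegral ℤ A) :
    Lx N (fun _ => A) := ⟨⟨0, A, hC.1 N A hN hA⟩, Hol.const A⟩

theorem Lx.add (hC : TC) {N : ℕ} (hN : 0 < N) {f g : ℍ → ℂ} (hf : Lx N f) (hg : Lx N g) :
    Lx N (fun τ => f τ + g τ) := by
  obtain ⟨⟨m, A, h1⟩, h2⟩ := hf
  obtain ⟨⟨m', A', h1'⟩, h2'⟩ := hg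
  refine ⟨⟨m + (m' + 1), 0 + 0, ?_⟩, Hol.add h2 h2'⟩
  have e1 := hC.2.1 N m (m' + 1) A f hN (by omega) h1
  have e2 := hC.2.1 N m' (m + 1) A' g hN (by omega) h1'
  rw [show m' + (m + 1) = m + (m' + 1) by ring] at e2
  exact hC.2.2.1 N _ 0 0 f g hN e1 e2

theorem Lx.mul (hC : TC) {N : ℕ} (hN : 0 < N) {f g : ℍ → ℂ} (hf : Lx N f) (hg : Lx N g) :
    Lx N (fun τ => f τ * g τ) := by
  obtain ⟨⟨m, A, h1⟩, h2⟩ := hf
  obtain ⟨⟨m', A', h1'⟩, h2'⟩ := hg
  exact ⟨⟨m + m', A * A', hC.2.2.2.1 N m m' A A' f g hN h1 h1'⟩, Hol.mul h2 h2'⟩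

theorem Lx.neg (hC : TC) {N : ℕ} (hN : 0 < N) {f : ℍ → ℂ} (hf : Lx N f) :
    Lx N (fun τ => - f τ) := by
  have h := Lx.mul hC hN (Lx.const hC hN (A := -1) (isIntegral_one.neg)) hf
  simpa using h

open Polynomial in
theorem coeff_prod (hC : TC) {N : ℕ} (hN : 0 < N) {ι : Type} [DecidableEq ι]
    (G : ι → ℍ → ℂ) (hG : ∀ k, Lx N (G k)) (s : Finset ι) :
    ∀ j, Lx N (fun τ => (∏ k ∈ s, (X - C (G k τ))).coeff j) := by
  classical
  induction s using Finset.induction_on with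
  | empty =>
    intro j
    by_cases hj : j = 0
    · subst hj
      simpa using Lx.const hC hN (A := 1) isIntegral_one
    · have : (fun _ : ℍ => (∏ k ∈ (∅ : Finset ι), (X - C (G k (UpperHalfPlane.I)))).coeff j) =
          fun _ => (0 : ℂ) := by
        funext τ
        simp [coeff_one, hj]
      have h0 := Lx.const hC hN (A := 0) isIntegral_zero
      convert h0 using 2 with τ
      simp [coeff_one, hj]
  | insert k s hk ih =>
    intro j
    have hrw : ∀ τ, (∏ k ∈ insert k s, (X - C (G k τ))).coeff j =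
        (if j = 0 then 0 else (∏ k ∈ s, (X - C (G k τ))).coeff (j - 1)) +
          -(G k τ * (∏ k ∈ s, (X - C (G k τ))).coeff j) := by
      intro τ
      rw [Finset.prod_insert hk, sub_mul, coeff_sub, coeff_C_mul]
      cases j with
      | zero => simp
      | succ j => simp [coeff_X_mul, sub_eq_add_neg]
    have h1 : Lx N (fun τ => -(G k τ * (∏ k ∈ s, (X - C (G k τ))).coeff j)) :=
      Lx.neg hC hN (Lx.mul hC hN (hG k) (ih j))
    have h2 : Lx N (fun τ => if j = 0 then (0:ℂ) else (∏ k ∈ s, (X - C (G k τ))).coeff (j - 1)) := by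
      by_cases hj : j = 0
      · simpa [hj] using Lx.const hC hN (A := 0) isIntegral_zero
      · simpa [hj] using ih (j - 1)
    have h3 := Lx.add hC hN h2 h1
    simpa only [hrw] using h3

end TDaux

open TDaux Polynomial in
theorem td : TaskTD := by
  intro hA hB hC hF τ w a b c d hdet hw
  obtain ⟨N, hNdet⟩ : ∃ N : ℕ, (N : ℤ) = a * d - b * c := ⟨(a * d - b * c).toNat, by omega⟩
  have hN : 0 < N := by
    have : (0:ℤ) < N := by rw [hNdet]; exact hdet
    exact_mod_cast this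
  obtain ⟨ι, _, _, α, δ, β, h, h1, h2, h3, h4⟩ := hF N hN
  have hG : ∀ k, Lx N (fun τ => jj (h k τ)) := by
    intro k
    obtain ⟨ha, hd, had⟩ := h1 k
    have := hC.2.2.2.2 hA.2.1 hA.2.2 (α k) (δ k) (β k) ha hd (h k) (h2 k)
    rw [had] at this
    exact ⟨⟨_, _, this.1⟩, this.2⟩
  let F : ℍ → ℂ[X] := fun τ => ∏ k, (X - C (jj (h k τ)))
  have hco := coeff_prod hC hN (fun k τ => jj (h k τ)) hG Finset.univ
  have hinv : ∀ j, Inv (fun τ => (F τ).coeff j) := by
    intro j p q r s hps τ w hw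
    obtain ⟨σ, hσ⟩ := h3 p q r s hps τ w hw
    have : F w = F τ := by
      show ∏ k, (X - C (jj (h k w))) = ∏ k, (X - C (jj (h k τ)))
      rw [← Equiv.prod_comp σ (fun k => (X - C (jj (h k τ))))]
      exact Finset.prod_congr rfl fun k _ => by rw [hσ k]
    show (F w).coeff j = (F τ).coeff j
    rw [this]
  have hmon : (F τ).Monic := monic_prod_of_monic _ _ fun k _ => monic_X_sub_C _
  -- coefficients are integral over `ℤ[j τ]`
  have hint : ∀ j, IsIntegral (Algebra.adjoin ℤ {jj τ}) ((F τ).coeff j) := by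
    intro j
    obtain ⟨⟨m, A, hL⟩, hH⟩ := hco j
    obtain ⟨P, hP1, hP2, -⟩ := hB N hN m A _ (hinv j) hH hL
    have hval : (F τ).coeff j = P.eval (jj τ) := hP2 τ
    rw [hval, eval_eq_sum]
    refine IsIntegral.sum _ fun k _ => ?_
    refine IsIntegral.mul ((hP1 k).tower_top) (IsIntegral.pow ?_ _)
    exact isIntegral_algebraMap (x := (⟨jj τ, Algebra.subset_adjoin rfl⟩ :
      Algebra.adjoin ℤ {jj τ}))
  -- `j w` is a root
  obtain ⟨k, hk⟩ := h4 a b c d (by rw [hNdet]) τ w hw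
  have hroot : (F τ).eval (jj w) = 0 := by
    show (∏ k, (X - C (jj (h k τ)))).eval (jj w) = 0
    rw [eval_prod]
    exact Finset.prod_eq_zero (Finset.mem_univ k) (by rw [hk]; simp)
  let S := integralClosure (Algebra.adjoin ℤ {jj τ}) ℂ
  have hlift : F τ ∈ lifts (algebraMap S ℂ) := by
    rw [lifts_iff_coeff_lifts]
    intro j
    exact ⟨⟨(F τ).coeff j, hint j⟩, rfl⟩
  obtain ⟨q, hq, -, hqm⟩ := lifts_and_natDegree_eq_and_monic hlift hmon
  have hS : IsIntegral S (jj w) := ⟨q, hqm, by rw [eval₂_eq_eval_map, hq]; exact hroot⟩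
  exact isIntegral_trans _ hS

end H294ZP
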