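import Pool.Agent.H294ZP.Stmts2

set_option autoImplicit false

open Function

namespace H294ZP

/-- Transfer of a solution in a field of characteristic zero to `ℂ`. -/
theorem tg_transfer {n c : ℕ} (P : Fin c → MvPolynomial (Fin n) ℚ) {L : Type*} [Field L]
    [Algebra ℚ L] (y : Fin n → L) (hy : ∀ m, MvPolynomial.aeval y (P m) = 0) :
    ∃ x : Fin n → ℂ, ∀ m, MvPolynomial.aeval x (P m) = 0 := by
  set J : Ideal (MvPolynomial (Fin n) ℚ) :=
    RingHom.ker (MvPolynomial.aeval y : MvPolynomial (Fin n) ℚ →ₐ[ℚ] L) with hJdef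
  have hJ : J ≠ ⊤ := RingHom.ker_ne_top _
  obtain ⟨M, hM, hJM⟩ := Ideal.exists_le_maximal J hJ
  letI : Field (MvPolynomial (Fin n) ℚ ⧸ M) := Ideal.Quotient.field M
  have hfin : Module.Finite ℚ (MvPolynomial (Fin n) ℚ ⧸ M) :=
    finite_of_finite_type_of_isJacobsonRing ℚ _
  let φ : (MvPolynomial (Fin n) ℚ ⧸ M) →ₐ[ℚ] ℂ := IsAlgClosed.lift
  let ψ : MvPolynomial (Fin n) ℚ →ₐ[ℚ] ℂ := φ.comp (Ideal.Quotient.mkₐ ℚ M)
  refine ⟨fun i => ψ (MvPolynomial.X i), fun m => ?_⟩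
  have h1 : MvPolynomial.aeval (fun i => ψ (MvPolynomial.X i)) = ψ := by
    ext i
    simp
  rw [h1]
  have h2 : P m ∈ M := hJM (by rw [hJdef, RingHom.mem_ker]; exact hy m)
  have h3 : Ideal.Quotient.mkₐ ℚ M (P m) = 0 := by
    rw [Ideal.Quotient.mkₐ_eq_mk]
    exact Ideal.Quotient.eq_zero_iff_mem.mpr h2
  show φ (Ideal.Quotient.mkₐ ℚ M (P m)) = 0
  rw [h3, map_zero]

/-- the ideal of elements of norm at most `δ` -/
def ballIdeal (l : ℕ) [Fact l.Prime] (δ : ℝ) (hδ : 0 ≤ δ) : Ideal ℤ_[l] where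
  carrier := {z | ‖z‖ ≤ δ}
  add_mem' := by
    intro a b ha hb
    exact (PadicInt.nonarchimedean a b).trans (max_le ha hb)
  zero_mem' := by simpa using hδ
  smul_mem' := by
    intro c x hx
    show ‖c * x‖ ≤ δ
    rw [norm_mul]
    calc ‖c‖ * ‖x‖ ≤ 1 * ‖x‖ := by gcongr; exact PadicInt.norm_le_one c
      _ ≤ δ := by rw [one_mul]; exact hx

/-- the extension of a vector by zeros -/
def ext0 {R : Type*} [Zero R] {n c : ℕ} (y : Fin c → R) (i : Fin n) : R :=
  if h : (i : ℕ) < c then y ⟨i, h⟩ else 0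

/-- evaluation in any commutative ring -/
def ev {R : Type*} [CommRing R] {n d : ℕ} (F : (Fin n → Fin (d + 1)) → ℤ) (x : Fin n → R) : R :=
  ∑ e : Fin n → Fin (d + 1), (F e : R) * ∏ i, x i ^ (e i : ℕ)

theorem ev_sub_mem {l : ℕ} [Fact l.Prime] {n d : ℕ} (F : (Fin n → Fin (d + 1)) → ℤ)
    (I : Ideal ℤ_[l]) (x x' : Fin n → ℤ_[l]) (h : ∀ i, x i - x' i ∈ I) : ev F x - ev F x' ∈ I := by
  rw [← Ideal.Quotient.eq]
  unfold ev
  rw [map_sum, map_sum]
  refine Finset.sum_congr rfl fun e _ => ?_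
  rw [map_mul, map_mul, map_prod, map_prod]
  congr 1
  refine Finset.prod_congr rfl fun i _ => ?_
  rw [map_pow, map_pow, Ideal.Quotient.eq.mpr (h i)]

/-- unit exponent vector -/
def uexp (n d : ℕ) (m : ℕ) (e : Fin n → Fin (d + 1)) : ℤ :=
  if ∀ i : Fin n, (e i : ℕ) = (if (i : ℕ) = m then 1 else 0) then 1 else 0

theorem ev_uexp {R : Type*} [CommRing R] {n d m : ℕ} (hd : 0 < d) (hm : m < n) (x : Fin n → R) :
    ev (uexp n d m) x = x ⟨m, hm⟩ := by
  classical
  have h1d : 1 < d + 1 := by omega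
  let e0 : Fin n → Fin (d + 1) := fun i => if (i : ℕ) = m then ⟨1, h1d⟩ else ⟨0, by omega⟩
  have he0 : ∀ i, (e0 i : ℕ) = if (i : ℕ) = m then 1 else 0 := by
    intro i
    simp only [e0]
    split_ifs <;> rfl
  unfold ev
  rw [Finset.sum_eq_single e0]
  · have : uexp n d m e0 = 1 := by
      unfold uexp
      rw [if_pos he0]
    rw [this]
    simp only [he0]
    rw [Int.cast_one, one_mul, Finset.prod_eq_single ⟨m, hm⟩]
    · simp
    · intro i _ hi
      have : (i : ℕ) ≠ m := fun h => hi (Fin.ext h)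
      simp [this]
    · simp
  · intro e _ he
    have : uexp n d m e = 0 := by
      unfold uexp
      rw [if_neg]
      intro h
      apply he
      ext i
      rw [h i, he0 i]
    rw [this]
    simp
  · simp

/-- `l`-adic solution -/
theorem tg_padic (n c d l : ℕ) [Fact l.Prime] (hd : 0 < d) (hc : c ≤ n)
    (F : Fin c → (Fin n → Fin (d + 1)) → ℤ)
    (hF : ∀ (m : Fin c) e, (l : ℤ) ∣ F m e - uexp n d m e) :
    ∃ x : Fin n → ℤ_[l], ∀ m, ev (F m) x = 0 := by
  classical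
  choose Gm hG using hF
  have hlp : (l : ℝ) > 1 := by exact_mod_cast (Fact.out : l.Prime).one_lt
  -- the map
  let Φ : (Fin c → ℤ_[l]) → (Fin c → ℤ_[l]) := fun y m => - ((l : ℤ_[l]) * ev (Gm m) (ext0 (n := n) y))
  have hFl : ∀ (m : Fin c) (y : Fin c → ℤ_[l]), ev (F m) (ext0 (n := n) y) =
      y m + (l : ℤ_[l]) * ev (Gm m) (ext0 (n := n) y) := by
    intro m y
    have h1 : ev (uexp n d m) (ext0 (n := n) y) = y m := by
      rw [ev_uexp hd (lt_of_lt_of_le m.2 hc)]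
      simp [ext0]
    rw [← h1]
    unfold ev
    rw [Finset.mul_sum, ← Finset.sum_add_distrib]
    refine Finset.sum_congr rfl fun e _ => ?_
    have h2 : F m e = uexp n d m e + l * Gm m e := by
      have := hG m e
      linarith
    rw [h2]
    push_cast
    ring
  have hlnorm : ‖(l : ℤ_[l])‖ = (l : ℝ)⁻¹ := PadicInt.norm_p
  have hLip : LipschitzWith ⟨(l : ℝ)⁻¹, by positivity⟩ Φ := by
    apply LipschitzWith.of_dist_le_mul
    intro y y'
    show dist (Φ y) (Φ y') ≤ (l : ℝ)⁻¹ * dist y y'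
    rw [dist_pi_le_iff (by positivity)]
    intro m
    rw [dist_eq_norm]
    have h1 : Φ y m - Φ y' m = - ((l : ℤ_[l]) *
        (ev (Gm m) (ext0 (n := n) y) - ev (Gm m) (ext0 (n := n) y'))) := by
      simp only [Φ]; ring
    rw [h1, norm_neg, norm_mul, hlnorm]
    gcongr
    have h2 : ∀ i : Fin n, (ext0 y i : ℤ_[l]) - ext0 y' i ∈ ballIdeal l (dist y y') dist_nonneg := by
      intro i
      show ‖(ext0 y i : ℤ_[l]) - ext0 y' i‖ ≤ dist y y'
      unfold ext0
      split_ifs with h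
      · rw [← dist_eq_norm]
        exact dist_le_pi_dist y y' _
      · simp
    exact ev_sub_mem (Gm m) _ _ _ h2
  have hcon : ContractingWith ⟨(l : ℝ)⁻¹, by positivity⟩ Φ := by
    refine ⟨?_, hLip⟩
    rw [← NNReal.coe_lt_coe]
    show (l : ℝ)⁻¹ < 1
    exact inv_lt_one_of_one_lt₀ hlp
  have hfp := hcon.fixedPoint_isFixedPt
  set y := hcon.fixedPoint Φ with hy
  refine ⟨ext0 (n := n) y, fun m => ?_⟩
  rw [hFl m y]
  have h1 : Φ y m = y m := congrFun hfp m
  simp only [Φ] at h1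
  linear_combination -h1

theorem tg : TaskTG := by
  intro n c d l hd hc hl F hF
  have : Fact l.Prime := ⟨hl⟩
  obtain ⟨x, hx⟩ := tg_padic n c d l hd hc F hF
  let P : Fin c → MvPolynomial (Fin n) ℚ := fun m =>
    ∑ e : Fin n → Fin (d + 1), MvPolynomial.C (F m e : ℚ) * ∏ i, MvPolynomial.X i ^ (e i : ℕ)
  have hP : ∀ m, MvPolynomial.aeval (fun i => (x i : ℚ_[l])) (P m) = 0 := by
    intro m
    have h1 : (PadicInt.Coe.ringHom (ev (F m) x) : ℚ_[l]) = 0 := by rw [hx m, map_zero]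
    rw [← h1]
    simp only [P, ev, map_sum, map_mul, map_prod, map_pow, MvPolynomial.aeval_X]
    refine Finset.sum_congr rfl fun e _ => ?_
    simp
  obtain ⟨z, hz⟩ := tg_transfer P _ hP
  refine ⟨z, fun m => ?_⟩
  rw [← hz m]
  simp only [P, evalP, map_sum, map_mul, map_prod, map_pow, MvPolynomial.aeval_X]
  refine Finset.sum_congr rfl fun e _ => ?_
  simp

end H294ZP
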