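import Mathlib
import Pool.Agent.H294ZP.Stmts

/-!
# Zilber-Pink for Y(1)^n (H294-ZP), task TA2 (helper318): integrality of the expansion of `j`
-/

open UpperHalfPlane ModularForm Function EisensteinSeries
open scoped ArithmeticFunction.sigma MatrixGroups Manifold

namespace H294ZP.TA2

/-- `F` is given by the power series `P` in `q`. -/
def R (P : PowerSeries ℂ) (F : ℍ → ℂ) : Prop :=
  ∀ τ, HasSum (fun n => P.coeff n * qq 1 τ ^ n) (F τ)

theorem qq_eq (τ : ℍ) : qq 1 τ = Function.Periodic.qParam 1 (τ : ℂ) := by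
  unfold qq Function.Periodic.qParam
  simp

theorem qq_ne (τ : ℍ) : qq 1 τ ≠ 0 := Complex.exp_ne_zero _

theorem R_mul {P Q : PowerSeries ℂ} {F G : ℍ → ℂ} (hP : R P F) (hQ : R Q G) :
    R (P * Q) (fun τ => F τ * G τ) := by
  intro τ
  have h1 := (hP τ).summable.norm
  have h2 := (hQ τ).summable.norm
  have h3 : HasSum (fun n : ℕ => ∑ kl ∈ Finset.HasAntidiagonal.antidiagonal n,
      (P.coeff kl.1 * qq 1 τ ^ kl.1) * (Q.coeff kl.2 * qq 1 τ ^ kl.2)) (F τ * G τ) := by
    have h4 := (summable_norm_sum_mul_antidiagonal_of_summable_norm h1 h2).of_norm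
    have h5 := tsum_mul_tsum_eq_tsum_sum_antidiagonal_of_summable_norm h1 h2
    rw [(hP τ).tsum_eq, (hQ τ).tsum_eq] at h5
    rw [h5]
    exact h4.hasSum
  have h6 : (fun n : ℕ => (P * Q).coeff n * qq 1 τ ^ n) =
      fun n : ℕ => ∑ kl ∈ Finset.HasAntidiagonal.antidiagonal n,
      (P.coeff kl.1 * qq 1 τ ^ kl.1) * (Q.coeff kl.2 * qq 1 τ ^ kl.2) := by
    funext n
    rw [PowerSeries.coeff_mul, Finset.sum_mul]
    refine Finset.sum_congr rfl fun kl hkl => ?_
    rw [← Finset.HasAntidiagonal.mem_antidiagonal.1 hkl, pow_add]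
    ring
  rw [h6]
  exact h3

theorem R_sub {P Q : PowerSeries ℂ} {F G : ℍ → ℂ} (hP : R P F) (hQ : R Q G) :
    R (P - Q) (fun τ => F τ - G τ) := by
  intro τ
  have h := (hP τ).sub (hQ τ)
  have h6 : (fun n : ℕ => (P - Q).coeff n * qq 1 τ ^ n) =
      fun n : ℕ => P.coeff n * qq 1 τ ^ n - Q.coeff n * qq 1 τ ^ n := by
    funext n
    rw [map_sub]
    ring
  rw [h6]
  exact h

theorem R_unique {P Q : PowerSeries ℂ} (hP : R P (fun _ => 1)) (hQ : R Q (fun _ => 1)) :
    P = Q := by
  have hone : (cuspFunction (1 : ℝ) (fun _ : ℍ => (1 : ℂ))) = fun _ => 1 := by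
    have h : (qExpansion (1 : ℝ) (1 : ℍ → ℂ)) = 1 := qExpansion_one (1 : ℝ)
    unfold cuspFunction Function.Periodic.cuspFunction
    funext q
    by_cases hq : q = 0
    · subst hq
      simp only [Function.update_self]
      apply Filter.Tendsto.limUnder_eq
      exact tendsto_const_nhds
    · rw [Function.update_of_ne hq]
      rfl
  have han : AnalyticAt ℂ (cuspFunction (1 : ℝ) (fun _ : ℍ => (1 : ℂ))) 0 := by
    rw [hone]
    exact analyticAt_const
  have key : ∀ P : PowerSeries ℂ, R P (fun _ => 1) →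
      HasFPowerSeriesAt (cuspFunction (1 : ℝ) (fun _ : ℍ => (1 : ℂ)))
        (.ofScalars ℂ (fun n => P.coeff n)) 0 := by
    intro P hP
    have h1 : ∀ τ : ℍ, HasSum (fun m => (fun n => P.coeff n) m •
        Function.Periodic.qParam (1 : ℝ) (τ : ℂ) ^ m) ((fun _ : ℍ => (1 : ℂ)) τ) := by
      intro τ
      have := hP τ
      rw [qq_eq] at this
      exact this
    exact (hasFPowerSeriesOnBall_cuspFunction (f := fun _ : ℍ => (1 : ℂ)) (h := (1 : ℝ))
      one_pos han h1).hasFPowerSeriesAt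
  have h2 := (key P hP).eq_formalMultilinearSeries (key Q hQ)
  ext n
  have h3 := congrArg (fun p => FormalMultilinearSeries.coeff p n) h2
  simpa [FormalMultilinearSeries.coeff_ofScalars] using h3

theorem R_E4 : R (qExpansion 1 E₄) (fun τ => E₄ τ) := by
  intro τ
  rw [qq_eq]
  exact ModularForm.hasSum_qExpansion E₄ one_pos one_mem_strictPeriods_SL τ

theorem R_E6 : R (qExpansion 1 E₆) (fun τ => E₆ τ) := by
  intro τ
  rw [qq_eq]
  exact ModularForm.hasSum_qExpansion E₆ one_pos one_mem_strictPeriods_SL τ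

/-- sigma_3 series -/
noncomputable def A : PowerSeries ℤ := PowerSeries.mk fun n => (σ 3 n : ℤ)
/-- sigma_5 series -/
noncomputable def B : PowerSeries ℤ := PowerSeries.mk fun n => (σ 5 n : ℤ)

/-- the ring homomorphism -/
noncomputable abbrev mp : PowerSeries ℤ →+* PowerSeries ℂ := PowerSeries.map (Int.castRingHom ℂ)

theorem E4_eq : qExpansion 1 E₄ = mp (1 + 240 * A) := by
  ext n
  rw [E_qExpansion_coeff _ ⟨2, rfl⟩]
  have hb : bernoulli 4 = -1 / 30 := by decide +kernel
  have h240 : (240 : PowerSeries ℤ) = PowerSeries.C 240 := (map_ofNat PowerSeries.C 240).symm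
  rw [PowerSeries.coeff_map, map_add, h240, PowerSeries.coeff_C_mul, PowerSeries.coeff_one, A,
    PowerSeries.coeff_mk, hb]
  by_cases hn : n = 0
  · subst hn
    simp
  · simp only [hn, if_false]
    push_cast
    norm_num

theorem E6_eq : qExpansion 1 E₆ = mp (1 - 504 * B) := by
  ext n
  rw [E_qExpansion_coeff _ ⟨3, rfl⟩]
  have hb : bernoulli 6 = 1 / 42 := by decide +kernel
  have h504 : (504 : PowerSeries ℤ) = PowerSeries.C 504 := (map_ofNat PowerSeries.C 504).symm
  rw [PowerSeries.coeff_map, map_sub, h504, PowerSeries.coeff_C_mul, PowerSeries.coeff_one, B,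
    PowerSeries.coeff_mk, hb]
  by_cases hn : n = 0
  · subst hn
    simp
  · simp only [hn, if_false]
    push_cast
    norm_num

theorem dvd12 (d : ℤ) : (12 : ℤ) ∣ 5 * d ^ 3 + 7 * d ^ 5 := by
  have h : (5 * d ^ 3 + 7 * d ^ 5) % 12 = 0 := by
    have h1 : d % 12 = 0 ∨ d % 12 = 1 ∨ d % 12 = 2 ∨ d % 12 = 3 ∨ d % 12 = 4 ∨ d % 12 = 5 ∨
      d % 12 = 6 ∨ d % 12 = 7 ∨ d % 12 = 8 ∨ d % 12 = 9 ∨ d % 12 = 10 ∨ d % 12 = 11 := by omega
    rcases h1 with h | h | h | h | h | h | h | h | h | h | h | h <;>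
      simp [Int.add_emod, Int.mul_emod, pow_succ, h]
  exact Int.dvd_of_emod_eq_zero h

theorem dvd_sigma (n : ℕ) : (12 : ℤ) ∣ 5 * (σ 3 n : ℤ) + 7 * (σ 5 n : ℤ) := by
  rw [ArithmeticFunction.sigma_apply, ArithmeticFunction.sigma_apply]
  push_cast
  rw [Finset.mul_sum, Finset.mul_sum, ← Finset.sum_add_distrib]
  apply Finset.dvd_sum
  intro d _
  exact dvd12 d

/-- the series `(5 A + 7 B) / 12` -/
noncomputable def E : PowerSeries ℤ := PowerSeries.mk fun n => (5 * (σ 3 n : ℤ) + 7 * (σ 5 n : ℤ)) / 12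

theorem E_eq : 12 * E = 5 * A + 7 * B := by
  ext n
  have h12 : (12 : PowerSeries ℤ) = PowerSeries.C 12 := (map_ofNat PowerSeries.C 12).symm
  have h5 : (5 : PowerSeries ℤ) = PowerSeries.C 5 := (map_ofNat PowerSeries.C 5).symm
  have h7 : (7 : PowerSeries ℤ) = PowerSeries.C 7 := (map_ofNat PowerSeries.C 7).symm
  rw [h12, h5, h7, map_add, PowerSeries.coeff_C_mul, PowerSeries.coeff_C_mul,
    PowerSeries.coeff_C_mul, A, B, E, PowerSeries.coeff_mk, PowerSeries.coeff_mk,
    PowerSeries.coeff_mk]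
  exact Int.mul_ediv_cancel' (dvd_sigma n)

/-- integral series of Delta -/
noncomputable def D : PowerSeries ℤ := E + 100 * A ^ 2 + 8000 * A ^ 3 - 147 * B ^ 2

theorem D_eq : (1 + 240 * A) ^ 3 - (1 - 504 * B) ^ 2 = 1728 * D := by
  have h : 1728 * D = 144 * (12 * E) + 172800 * A ^ 2 + 13824000 * A ^ 3 - 254016 * B ^ 2 := by
    unfold D
    ring
  rw [h, E_eq]
  ring

theorem R_D : R (mp D) (fun τ => discriminant τ) := by
  have h1 := R_mul (R_mul R_E4 R_E4) R_E4
  have h2 := R_mul R_E6 R_E6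
  have h3 := R_sub h1 h2
  rw [E4_eq, E6_eq, ← map_mul, ← map_mul, ← map_mul, ← map_sub] at h3
  have h4 : (1 + 240 * A) * (1 + 240 * A) * (1 + 240 * A) - (1 - 504 * B) * (1 - 504 * B) =
      1728 * D := by
    rw [← D_eq]
    ring
  rw [h4] at h3
  intro τ
  have h5 := (h3 τ).div_const 1728
  have h6 : (E₄ τ * E₄ τ * E₄ τ - E₆ τ * E₆ τ) / 1728 = discriminant τ := by
    rw [discriminant_eq_E₄_cube_sub_E₆_sq]
    ring
  rw [h6] at h5
  have h7 : (fun n : ℕ => (mp D).coeff n * qq 1 τ ^ n) =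
      fun n : ℕ => (mp (1728 * D)).coeff n * qq 1 τ ^ n / 1728 := by
    funext n
    have h1728 : (1728 : PowerSeries ℤ) = PowerSeries.C 1728 := (map_ofNat PowerSeries.C 1728).symm
    rw [PowerSeries.coeff_map, PowerSeries.coeff_map, h1728, PowerSeries.coeff_C_mul]
    simp only [map_mul, eq_intCast]
    push_cast
    ring
  rw [h7]
  exact h5

theorem A0 : A.coeff 0 = 0 := by simp [A]
theorem B0 : B.coeff 0 = 0 := by simp [B]
theorem A1 : A.coeff 1 = 1 := by simp [A]
theorem B1 : B.coeff 1 = 1 := by simp [B]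

theorem D0 : D.coeff 0 = 0 := by
  have hA : PowerSeries.constantCoeff A = 0 := by
    rw [← PowerSeries.coeff_zero_eq_constantCoeff_apply, A0]
  have hB : PowerSeries.constantCoeff B = 0 := by
    rw [← PowerSeries.coeff_zero_eq_constantCoeff_apply, B0]
  have hE : PowerSeries.constantCoeff E = 0 := by
    rw [← PowerSeries.coeff_zero_eq_constantCoeff_apply]
    simp [E]
  rw [PowerSeries.coeff_zero_eq_constantCoeff_apply]
  simp [D, hA, hB, hE]

theorem coeff_one_mul (P Q : PowerSeries ℤ) (hP : P.coeff 0 = 0) (hQ : Q.coeff 0 = 0) :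
    (P * Q).coeff 1 = 0 := by
  rw [PowerSeries.coeff_mul]
  simp only [Finset.Nat.antidiagonal_succ, Finset.Nat.antidiagonal_zero, Finset.map_singleton,
    Finset.sum_cons, Finset.sum_singleton]
  simp [hP, hQ]

theorem D1 : D.coeff 1 = 1 := by
  have hE : E.coeff 1 = 1 := by simp [E]
  have h100 : (100 : PowerSeries ℤ) = PowerSeries.C 100 := (map_ofNat PowerSeries.C 100).symm
  have h8000 : (8000 : PowerSeries ℤ) = PowerSeries.C 8000 := (map_ofNat PowerSeries.C 8000).symm
  have h147 : (147 : PowerSeries ℤ) = PowerSeries.C 147 := (map_ofNat PowerSeries.C 147).symm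
  have hAA : (A ^ 2).coeff 1 = 0 := by
    rw [pow_two]
    exact coeff_one_mul A A A0 A0
  have hAA0 : (A ^ 2).coeff 0 = 0 := by
    have hA : PowerSeries.constantCoeff A = 0 := by
      rw [← PowerSeries.coeff_zero_eq_constantCoeff_apply, A0]
    rw [PowerSeries.coeff_zero_eq_constantCoeff_apply]
    simp [hA]
  have hAAA : (A ^ 3).coeff 1 = 0 := by
    rw [pow_succ]
    exact coeff_one_mul _ A hAA0 A0
  have hBB : (B ^ 2).coeff 1 = 0 := by
    rw [pow_two]
    exact coeff_one_mul B B B0 B0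
  unfold D
  rw [map_sub, map_add, map_add, h100, h8000, h147, PowerSeries.coeff_C_mul,
    PowerSeries.coeff_C_mul, PowerSeries.coeff_C_mul, hE, hAA, hAAA, hBB]
  norm_num

/-- `Delta / q` -/
noncomputable def U : PowerSeries ℤ := PowerSeries.mk fun n => D.coeff (n + 1)

theorem U0 : PowerSeries.constantCoeff U = 1 := by
  rw [← PowerSeries.coeff_zero_eq_constantCoeff_apply, U, PowerSeries.coeff_mk]
  exact D1

theorem R_U : R (mp U) (fun τ => discriminant τ / qq 1 τ) := by
  intro τ
  have h := R_D τ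
  rw [← hasSum_nat_add_iff' 1] at h
  simp only [Finset.range_one, Finset.sum_singleton, PowerSeries.coeff_map, D0, map_zero,
    zero_mul, sub_zero] at h
  have h2 := h.div_const (qq 1 τ)
  have h7 : (fun n : ℕ => (mp U).coeff n * qq 1 τ ^ n) =
      fun n : ℕ => (Int.castRingHom ℂ) (D.coeff (n + 1)) * qq 1 τ ^ (n + 1) / qq 1 τ := by
    funext n
    rw [PowerSeries.coeff_map, U, PowerSeries.coeff_mk, pow_succ, ← mul_assoc,
      mul_div_cancel_right₀ _ (qq_ne τ)]
  rw [h7]
  exact h2

/-- the inverse of `U` -/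
noncomputable def V : PowerSeries ℤ := PowerSeries.invOfUnit U 1

theorem UV : U * V = 1 := PowerSeries.mul_invOfUnit U 1 (by rw [U0]; rfl)

theorem disc_mdiff : DifferentiableOn ℂ ((fun τ : ℍ => discriminant τ) ∘ ofComplex)
    {z | 0 < z.im} :=
  UpperHalfPlane.mdifferentiable_iff.1 (ModularFormClass.holo CuspForm.discriminant)

theorem R_V : R (mp V) (fun τ => qq 1 τ / discriminant τ) := by
  set f : ℍ → ℂ := fun τ => qq 1 τ / discriminant τ with hf
  -- periodicity
  have hper : Periodic (f ∘ ofComplex) ((1 : ℝ) : ℂ) := by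
    have h1 : Periodic ((fun τ : ℍ => discriminant τ) ∘ ofComplex) ((1 : ℝ) : ℂ) :=
      SlashInvariantFormClass.periodic_comp_ofComplex CuspForm.discriminant
        one_mem_strictPeriods_SL
    intro w
    have h2 := h1 w
    by_cases hw : 0 < w.im
    · have hw' : 0 < (w + ((1 : ℝ) : ℂ)).im := by simpa using hw
      simp only [Function.comp_apply] at h2 ⊢
      rw [hf]
      simp only [h2]
      congr 1
      rw [qq_eq, qq_eq, ofComplex_apply_of_im_pos hw, ofComplex_apply_of_im_pos hw']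
      unfold Function.Periodic.qParam
      rw [← Complex.exp_periodic (2 * Real.pi * Complex.I * w / (1 : ℝ))]
      congr 1
      push_cast
      ring
    · have hw' : (w + ((1 : ℝ) : ℂ)).im ≤ 0 := by simpa using hw
      simp only [Function.comp_apply]
      rw [ofComplex_apply_of_im_nonpos hw', ofComplex_apply_of_im_nonpos (not_lt.1 hw)]
  have hhol : MDiff f := by
    rw [UpperHalfPlane.mdifferentiable_iff]
    have h1 : DifferentiableOn ℂ (fun z : ℂ => Complex.exp (2 * Real.pi * Complex.I * z / (1 : ℕ)))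
        {z | 0 < z.im} := by fun_prop
    have h2 : DifferentiableOn ℂ (fun z : ℂ =>
        Complex.exp (2 * Real.pi * Complex.I * z / (1 : ℕ)) /
          ((fun τ : ℍ => discriminant τ) ∘ ofComplex) z) {z | 0 < z.im} :=
      h1.div disc_mdiff fun z hz => discriminant_ne_zero (ofComplex z)
    refine h2.congr fun z hz => ?_
    have hz' : 0 < z.im := hz
    simp only [Function.comp_apply, hf, qq, ofComplex_apply_of_im_pos hz']
  have hbdd : IsBoundedAtImInfty f := by
    have h1 : (fun τ : ℍ => qq 1 τ) =O[atImInfty] (fun τ : ℍ => discriminant τ) := by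
      refine Asymptotics.IsBigO.trans ?_ exp_isBigO_discriminant
      refine Asymptotics.IsBigO.of_bound 1 (Filter.Eventually.of_forall fun τ => ?_)
      rw [one_mul, Real.norm_of_nonneg (Real.exp_pos _).le, qq_eq]
      simp [Function.Periodic.qParam, Complex.norm_exp]
    have h2 := h1.mul (Asymptotics.isBigO_refl (fun τ : ℍ => (discriminant τ)⁻¹) atImInfty)
    refine Asymptotics.IsBigO.trans (Asymptotics.IsBigO.congr_left h2 fun τ => ?_) ?_
    · rw [hf]
      exact (div_eq_mul_inv _ _).symm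
    · refine Asymptotics.IsBigO.of_bound 1 (Filter.Eventually.of_forall fun τ => ?_)
      rw [mul_inv_cancel₀ (discriminant_ne_zero τ)]
      simp
  have hW : R (qExpansion 1 f) f := by
    intro τ
    have := UpperHalfPlane.hasSum_qExpansion (h := 1) one_pos hper hhol hbdd τ
    rw [qq_eq]
    simpa [smul_eq_mul] using this
  have hprod := R_mul R_U hW
  have hone : (fun τ => discriminant τ / qq 1 τ * f τ) = fun _ => (1 : ℂ) := by
    funext τ
    rw [hf]
    have h1 := discriminant_ne_zero τ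
    have h2 := qq_ne τ
    field_simp
  rw [hone] at hprod
  have h1 : R (1 : PowerSeries ℂ) (fun _ => 1) := by
    intro τ
    have := hasSum_ite_eq (0 : ℕ) (1 : ℂ)
    have h7 : (fun n : ℕ => (1 : PowerSeries ℂ).coeff n * qq 1 τ ^ n) =
        fun n : ℕ => if n = 0 then (1 : ℂ) else 0 := by
      funext n
      rw [PowerSeries.coeff_one]
      by_cases hn : n = 0
      · subst hn
        simp
      · simp [hn]
    rw [h7]
    exact this
  have h2 := R_unique hprod h1
  have h3 : mp U * mp V = 1 := by rw [← map_mul, UV, map_one]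
  have h4 : qExpansion 1 f = mp V := by
    calc qExpansion 1 f = (mp U * mp V) * qExpansion 1 f := by rw [h3, one_mul]
      _ = mp V * (mp U * qExpansion 1 f) := by ring
      _ = mp V := by rw [h2, mul_one]
  rw [← h4]
  exact hW

end H294ZP.TA2

namespace H294ZP

open H294ZP.TA2

theorem ta2 : TaskTA2 := by
  have h := R_mul (R_mul (R_mul R_E4 R_E4) R_E4) R_V
  rw [E4_eq, ← map_mul, ← map_mul, ← map_mul] at h
  set W : PowerSeries ℤ := (1 + 240 * A) * (1 + 240 * A) * (1 + 240 * A) * V with hW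
  refine ⟨fun n => (W.coeff n : ℂ), ?_, fun n => isIntegral_algebraMap (R := ℤ) (x := W.coeff n), fun τ => ?_⟩
  · have h1 : W.coeff 0 = 1 := by
      have hA : PowerSeries.constantCoeff A = 0 := by
        rw [← PowerSeries.coeff_zero_eq_constantCoeff_apply, A0]
      have hV : PowerSeries.constantCoeff V = 1 := by
        have := congrArg PowerSeries.constantCoeff UV
        rw [map_mul, U0, one_mul, map_one] at this
        exact this
      rw [PowerSeries.coeff_zero_eq_constantCoeff_apply, hW]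
      simp [hA, hV]
    simp [h1]
  · have h2 : HasSum (fun n => (mp W).coeff n * qq 1 τ ^ n)
        (E₄ τ * E₄ τ * E₄ τ * (qq 1 τ / discriminant τ)) := h τ
    have h3 : E₄ τ * E₄ τ * E₄ τ * (qq 1 τ / discriminant τ) = qq 1 τ ^ 1 * jj τ := by
      unfold jj
      ring
    rw [h3] at h2
    exact h2

end H294ZP
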