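import Pool.Agent.H294ZP.Stmts

/-!
# Zilber-Pink for Y(1)^n (MP_d83ecd_ag): Task TC (closure properties of `Lau`)
-/

open UpperHalfPlane ModularForm Function

namespace H294ZP

namespace TCx

theorem hs_congr {f g : ℕ → ℂ} {a b : ℂ} (h : HasSum f a) (hf : ∀ n, g n = f n) (hab : b = a) :
    HasSum g b := by
  rw [hab, show g = f from funext hf]
  exact h

theorem lau_const (N : ℕ) (A : ℂ) (hA : IsIntegral ℤ A) : Lau N 0 A (fun _ => A) := by
  refine ⟨fun n => if n = 0 then A else 0, by simp, ?_, ?_⟩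
  · intro n
    dsimp only
    split_ifs
    · exact hA
    · exact isIntegral_zero
  · intro τ
    have h := hasSum_single (f := fun n : ℕ => (if n = 0 then A else 0) * qq N τ ^ n) 0
      (by intro n hn; simp [hn])
    simpa using h

theorem lau_shift (N m k : ℕ) (A : ℂ) (f : ℍ → ℂ) (hk : 0 < k) (h : Lau N m A f) :
    Lau N (m + k) 0 f := by
  obtain ⟨c, hc0, hcI, hc⟩ := h
  refine ⟨fun n => if n < k then 0 else c (n - k), by simp [hk], ?_, ?_⟩
  · intro n
    dsimp only
    split_ifs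
    · exact isIntegral_zero
    · exact hcI _
  · intro τ
    have h1 := (hc τ).mul_left (qq N τ ^ k)
    have hinj : Function.Injective (fun n : ℕ => n + k) := add_left_injective k
    have h2 := (hinj.hasSum_iff (f := fun n : ℕ => (if n < k then 0 else c (n - k)) * qq N τ ^ n)
      (a := qq N τ ^ (m + k) * f τ) (by
        intro n hn
        have : n < k := by
          by_contra hlt
          push Not at hlt
          exact hn ⟨n - k, by simp only; omega⟩
        simp [this]))
    rw [← h2]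
    refine hs_congr h1 (fun n => ?_) ?_
    · simp only [Function.comp]
      rw [if_neg (by omega), Nat.add_sub_cancel, pow_add]
      ring
    · rw [pow_add]
      ring

theorem lau_add (N m : ℕ) (A B : ℂ) (f g : ℍ → ℂ) (hf : Lau N m A f) (hg : Lau N m B g) :
    Lau N m (A + B) (fun τ => f τ + g τ) := by
  obtain ⟨c, hc0, hcI, hc⟩ := hf
  obtain ⟨e, he0, heI, he⟩ := hg
  refine ⟨fun n => c n + e n, by simp [hc0, he0], fun n => (hcI n).add (heI n), fun τ => ?_⟩
  exact hs_congr ((hc τ).add (he τ)) (fun n => by ring) (by ring)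

theorem lau_mul (N m k : ℕ) (A B : ℂ) (f g : ℍ → ℂ) (hf : Lau N m A f) (hg : Lau N k B g) :
    Lau N (m + k) (A * B) (fun τ => f τ * g τ) := by
  obtain ⟨c, hc0, hcI, hc⟩ := hf
  obtain ⟨e, he0, heI, he⟩ := hg
  refine ⟨fun n => ∑ p ∈ Finset.HasAntidiagonal.antidiagonal n, c p.1 * e p.2, by simp [hc0, he0], fun n =>
    IsIntegral.sum _ fun p _ => (hcI _).mul (heI _), fun τ => ?_⟩
  have s1 : Summable (fun n => ‖c n * qq N τ ^ n‖) := (hc τ).summable.norm
  have s2 : Summable (fun n => ‖e n * qq N τ ^ n‖) := (he τ).summable.norm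
  have h1 := tsum_mul_tsum_eq_tsum_sum_antidiagonal_of_summable_norm s1 s2
  have h2 := (summable_norm_sum_mul_antidiagonal_of_summable_norm s1 s2).of_norm
  rw [(hc τ).tsum_eq, (he τ).tsum_eq] at h1
  have h3 := h2.hasSum
  rw [← h1] at h3
  refine hs_congr h3 (fun n => ?_) ?_
  · rw [Finset.sum_mul]
    apply Finset.sum_congr rfl
    intro p hp
    rw [← Finset.HasAntidiagonal.mem_antidiagonal.1 hp, pow_add]
    ring
  · rw [pow_add]
    ring

theorem lau_jj (hJ : Lau 1 1 1 jj) (a d : ℕ) (b : ℤ) (ha : 0 < a) (hd : 0 < d) (h : ℍ → ℍ)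
    (hh : ∀ τ, (h τ : ℂ) * d = a * τ + b) :
    Lau (a * d) (a ^ 2) (Complex.exp (- (2 * Real.pi * Complex.I * b / d)))
      (fun τ => jj (h τ)) := by
  obtain ⟨c, hc0, hcI, hc⟩ := hJ
  have hd0 : (d : ℂ) ≠ 0 := by exact_mod_cast hd.ne'
  have ha0 : (a : ℂ) ≠ 0 := by exact_mod_cast ha.ne'
  set ζ : ℂ := Complex.exp (2 * Real.pi * Complex.I * b / d) with hζ
  have hζinv : Complex.exp (- (2 * Real.pi * Complex.I * b / d)) = ζ⁻¹ := by
    rw [Complex.exp_neg]
  have hζ0 : ζ ≠ 0 := Complex.exp_ne_zero _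
  have hζd : ζ ^ d = 1 := by
    rw [hζ, ← Complex.exp_nat_mul]
    rw [Complex.exp_eq_one_iff]
    refine ⟨b, ?_⟩
    field_simp
  have hζI : IsIntegral ℤ ζ := IsIntegral.of_pow hd (by rw [hζd]; exact isIntegral_one)
  have hζI' : IsIntegral ℤ ζ⁻¹ :=
    IsIntegral.of_pow hd (by rw [inv_pow, hζd, inv_one]; exact isIntegral_one)
  rw [hζinv]
  have ha2 : 0 < a ^ 2 := by positivity
  refine ⟨fun n => if a ^ 2 ∣ n then ζ⁻¹ * (c (n / a ^ 2) * ζ ^ (n / a ^ 2)) else 0, ?_, ?_, ?_⟩
  · simp [hc0]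
  · intro n
    dsimp only
    split_ifs
    · exact hζI'.mul ((hcI _).mul (hζI.pow _))
    · exact isIntegral_zero
  · intro τ
    have hq : qq 1 (h τ) = qq (a * d) τ ^ (a ^ 2) * ζ := by
      unfold qq
      rw [← Complex.exp_nat_mul, hζ, ← Complex.exp_add]
      congr 1
      have : (h τ : ℂ) = (a * τ + b) / d := by
        rw [eq_div_iff hd0]; exact hh τ
      rw [this]
      push_cast
      field_simp
    have h1 := (hc (h τ)).mul_left ζ⁻¹
    rw [hq] at h1
    have hinj : Function.Injective (fun n : ℕ => a ^ 2 * n) := by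
      intro x y hxy
      exact Nat.eq_of_mul_eq_mul_left ha2 hxy
    have h2 := (hinj.hasSum_iff
      (f := fun n : ℕ => (if a ^ 2 ∣ n then ζ⁻¹ * (c (n / a ^ 2) * ζ ^ (n / a ^ 2)) else 0) *
        qq (a * d) τ ^ n)
      (a := qq (a * d) τ ^ (a ^ 2) * jj (h τ)) (by
        intro n hn
        have : ¬ a ^ 2 ∣ n := by
          rintro ⟨k, rfl⟩
          exact hn ⟨k, rfl⟩
        simp [this]))
    rw [← h2]
    refine hs_congr h1 (fun n => ?_) ?_
    · simp only [Function.comp]
      rw [if_pos (dvd_mul_right _ _), Nat.mul_div_cancel_left _ ha2, pow_mul, mul_pow]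
      ring
    · rw [pow_one]
      field_simp

theorem hol_jj (hJ : Hol jj) (a d : ℕ) (b : ℤ) (ha : 0 < a) (hd : 0 < d) (h : ℍ → ℍ)
    (hh : ∀ τ, (h τ : ℂ) * d = a * τ + b) : Hol (fun τ => jj (h τ)) := by
  have hd0 : (d : ℂ) ≠ 0 := by exact_mod_cast hd.ne'
  unfold Hol at hJ ⊢
  have him : ∀ z : ℂ, 0 < z.im → 0 < (((a : ℂ) * z + b) / d).im := by
    intro z hz
    have : (((a : ℂ) * z + b) / d).im = a * z.im / d := by
      have e : ((a : ℂ) * z + b) / d = ((a * z.re + b) / d : ℝ) + ((a * z.im / d : ℝ) : ℂ) *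
          Complex.I := by
        conv_lhs => rw [← Complex.re_add_im z]
        push_cast
        field_simp
        ring
      rw [e]
      simp
    rw [this]
    have : (0 : ℝ) < a := by exact_mod_cast ha
    have : (0 : ℝ) < d := by exact_mod_cast hd
    positivity
  have h1 : DifferentiableOn ℂ (fun z : ℂ => ((a : ℂ) * z + b) / d) {z | 0 < z.im} := by
    fun_prop
  have h2 := hJ.comp h1 (fun z hz => him z hz)
  refine h2.congr ?_
  intro z hz
  have hz' : 0 < z.im := hz
  simp only [Function.comp]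
  rw [ofComplex_apply_of_im_pos hz', ofComplex_apply_of_im_pos (him z hz')]
  congr 1
  apply UpperHalfPlane.ext
  show (h ⟨z, hz'⟩ : ℂ) = ((a : ℂ) * z + b) / d
  rw [eq_div_iff hd0]
  exact hh _

end TCx

open TCx

theorem tc : TaskTC :=
  ⟨fun N A _ hA => lau_const N A hA,
   fun N m k A f _ hk h => lau_shift N m k A f hk h,
   fun N m A B f g _ hf hg => lau_add N m A B f g hf hg,
   fun N m k A B f g _ hf hg => lau_mul N m k A B f g hf hg,
   fun hH hJ a d b ha hd h hh => ⟨lau_jj hJ a d b ha hd h hh, hol_jj hH a d b ha hd h hh⟩⟩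

end H294ZP
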