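import Pool.Agent.H294ZP.Count
import Pool.Agent.H294ZP.TA1
import Pool.Agent.H294ZP.TaskTA2
import Pool.Agent.H294ZP.TBproof
import Pool.Agent.H294ZP.TD
import Pool.Agent.H294ZP.TG
import Pool.Agent.H294ZP.TaskTC
import Pool.Agent.H676R4.ZPTF
import Pool.Agent.H610R3.ZPTE

namespace H294ZP

/-- `j (g τ)` is integral over `ℤ[j τ]` for all integral matrices `g` of positive determinant. -/
theorem isogenous_integral : TD :=
  td ⟨ta1.1, ta1.2, ta2⟩ (TBproof.tb ⟨ta1.1, ta1.2, ta2⟩ tc) tc (TF676.tf ta1.1)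

/-- Singular moduli are algebraic integers. -/
theorem singular_modulus_integral : TE :=
  H610.te ⟨ta1.1, ta1.2, ta2⟩ (TBproof.tb ⟨ta1.1, ta1.2, ta2⟩ tc) tc (TF676.tf ta1.1)

theorem main (n c d : ℕ) (hc : 0 < c) (hd : 0 < d) :
    ∃ δ : ℝ, 0 < δ ∧ ∃ H₀ : ℕ, ∀ H : ℕ, H₀ ≤ H →
      δ * (2 * H + 1) ^ (c * (d + 1) ^ n) ≤
        ({F : Fin c → (Fin n → Fin (d + 1)) → ℤ | (∀ m e, |F m e| ≤ H) ∧
          (c ≤ n → ∃ x : Fin n → ℂ, ∀ m, evalP (F m) x = 0) ∧ NoAtypical F}.ncard : ℝ) :=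
  final isogenous_integral singular_modulus_integral tg n c d hc hd

end H294ZP
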