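import Pool.Agent.H294ZP.Stmts

/-!
# Zilber-Pink for Y(1)^n (MP_d83ecd_ag): the valuation-theoretic part
-/

open Function

namespace H294ZP

/-- Evaluation of the polynomial with coefficients `F` (degree `≤ d` in each variable). -/
noncomputable def evalP {n d : ℕ} (F : (Fin n → Fin (d + 1)) → ℤ) (x : Fin n → ℂ) : ℂ :=
  ∑ e : Fin n → Fin (d + 1), (F e : ℂ) * ∏ i, x i ^ (e i : ℕ)

/-- The exponent vector attached to a labelling and a set of labels. -/
def expo {n k d : ℕ} (lam : Fin n → Option (Fin k)) (T : Finset (Fin k)) :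
    Fin n → Fin (d + 1) :=
  fun i => match lam i with
    | none => 0
    | some j => if j ∈ T then Fin.last d else 0

/-- Coefficient of the monomial `e` in the `m`-th elementary symmetric polynomial of the
block monomials. -/
def symC {n k d : ℕ} (lam : Fin n → Option (Fin k)) (m : ℕ) (e : Fin n → Fin (d + 1)) : ℤ :=
  ((Finset.univ : Finset (Finset (Fin k))).filter
    (fun T => T.card = m ∧ expo lam T = e)).card

/-- Congruence conditions modulo `p`. -/
def CongAt {n k d : ℕ} (p : ℕ) (lam : Fin n → Option (Fin k))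
    (F : Fin (k + 1) → (Fin n → Fin (d + 1)) → ℤ) : Prop :=
  ∀ (m : Fin (k + 1)) (e : Fin n → Fin (d + 1)), (p : ℤ) ∣ F m e - symC lam m e

/-- Existence of a valuation ring over `p` containing given algebraically independent numbers. -/
theorem exists_val {ι : Type*} (y : ι → ℂ) (hy : AlgebraicIndependent ℚ y) {p : ℕ}
    (hp : p.Prime) :
    ∃ B : ValuationSubring ℂ, (p : ℂ) ∈ B.nonunits ∧ ∀ i, y i ∈ B := by
  have hyZ : AlgebraicIndependent ℤ y := hy.restrictScalars (Int.cast_injective (α := ℚ))
  set A : Subalgebra ℤ ℂ := Algebra.adjoin ℤ (Set.range y) with hA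
  let I : Ideal A.toSubring := Ideal.span {((p : ℕ) : A.toSubring)}
  have hI : I ≠ ⊤ := by
    intro h
    rw [Ideal.span_singleton_eq_top] at h
    have h2 : IsUnit ((p : ℕ) : A) := h
    have h3 : IsUnit (hyZ.aevalEquiv.symm ((p : ℕ) : A)) := h2.map hyZ.aevalEquiv.symm
    rw [map_natCast] at h3
    have h4 := h3.map (MvPolynomial.constantCoeff (R := ℤ) (σ := ι))
    rw [map_natCast] at h4
    rw [Int.isUnit_iff] at h4
    have := hp.two_le
    omega
  obtain ⟨B, hB1, hB2⟩ := Ideal.image_subset_nonunits_valuationSubring I hI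
  refine ⟨B, ?_, ?_⟩
  · apply hB2
    exact ⟨((p : ℕ) : A.toSubring), Ideal.subset_span rfl, by simp⟩
  · intro i
    apply hB1
    exact Algebra.subset_adjoin (Set.mem_range_self i)

/-- The domination lemma. -/
theorem dominate {n k d : ℕ} (hd : 0 < d) (p : ℕ) (lam : Fin n → Option (Fin k))
    (F : Fin (k + 1) → (Fin n → Fin (d + 1)) → ℤ) (hF : CongAt p lam F)
    (B : ValuationSubring ℂ) (hp : (p : ℂ) ∈ B.nonunits) (x : Fin n → ℂ)
    (hI : ∀ i, lam i = none → x i ∈ B)
    (hcl : ∀ i i' j, lam i = some j → lam i' = some j → x i ∈ B → x i' ∈ B) :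
    ∃ m, evalP (F m) x ≠ 0 := by
  classical
  set v := B.valuation with hv
  have hvp : v (p : ℂ) < 1 := by
    rwa [ValuationSubring.mem_nonunits_iff] at hp
  have hvint : ∀ z : ℤ, v (z : ℂ) ≤ 1 := by
    intro z
    rw [ValuationSubring.valuation_le_one_iff]
    exact intCast_mem B z
  have hvdvd : ∀ z : ℤ, (p : ℤ) ∣ z → v (z : ℂ) < 1 := by
    rintro z ⟨w, rfl⟩
    push_cast
    rw [map_mul]
    calc v (p : ℂ) * v (w : ℂ) ≤ v (p : ℂ) * 1 := by
          gcongr
          exact hvint w
      _ = v (p : ℂ) := mul_one _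
      _ < 1 := hvp
  let S : Finset (Fin k) := Finset.univ.filter (fun j => ∃ i, lam i = some j ∧ x i ∉ B)
  have hcard : S.card < k + 1 := by
    have := S.card_le_univ
    simp only [Fintype.card_fin] at this
    omega
  let m : Fin (k + 1) := ⟨S.card, hcard⟩
  refine ⟨m, ?_⟩
  let eS : Fin n → Fin (d + 1) := expo lam S
  -- description of `eS`
  have heS : ∀ i, (eS i : ℕ) = if x i ∈ B then 0 else d := by
    intro i
    simp only [eS, expo]
    cases hl : lam i with
    | none => simp [hI i hl]
    | some j =>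
      by_cases hx : x i ∈ B
      · have : j ∉ S := by
          intro hj
          simp only [S, Finset.mem_filter, Finset.mem_univ, true_and] at hj
          obtain ⟨i', hi', hx'⟩ := hj
          exact hx' (hcl i i' j hl hi' hx)
        simp [this, hx]
      · have : j ∈ S := by
          simp only [S, Finset.mem_filter, Finset.mem_univ, true_and]
          exact ⟨i, hl, hx⟩
        simp [this, hx]
  -- size of monomials
  have hgt : ∀ i, x i ∉ B → 1 < v (x i) := by
    intro i hi
    by_contra h
    push Not at h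
    exact hi ((ValuationSubring.valuation_le_one_iff _ _).1 h)
  have hmon : ∀ e : Fin n → Fin (d + 1), ∀ i, v (x i) ^ (e i : ℕ) ≤ v (x i) ^ (eS i : ℕ) := by
    intro e i
    rw [heS i]
    split_ifs with hx
    · rw [pow_zero]
      exact pow_le_one' ((ValuationSubring.valuation_le_one_iff _ _).2 hx) _
    · exact pow_le_pow_right₀ (hgt i hx).le (Nat.lt_succ_iff.1 (e i).2)
  have hpos : ∀ i, 0 < v (x i) ^ (eS i : ℕ) := by
    intro i
    rw [heS i]
    split_ifs with hx
    · simp
    · exact pow_pos (lt_trans zero_lt_one (hgt i hx)) _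
  set Bd := ∏ i, v (x i) ^ (eS i : ℕ) with hBd
  have hBdpos : 0 < Bd := by
    rw [hBd]
    exact Finset.prod_induction _ (fun t => 0 < t) (fun a b ha hb => mul_pos ha hb) zero_lt_one
      (fun i _ => hpos i)
  have hterm : ∀ e : Fin n → Fin (d + 1), v (∏ i, x i ^ (e i : ℕ)) ≤ Bd := by
    intro e
    rw [map_prod]
    simp only [map_pow]
    exact Finset.prod_le_prod' (fun i _ => hmon e i)
  have hlt : ∀ e : Fin n → Fin (d + 1), (∃ i, x i ∉ B ∧ (e i : ℕ) = 0) →
      v (∏ i, x i ^ (e i : ℕ)) < Bd := by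
    rintro e ⟨i, hi, hei⟩
    rw [map_prod]
    simp only [map_pow]
    rw [hBd, ← Finset.mul_prod_erase _ _ (Finset.mem_univ i),
      ← Finset.mul_prod_erase _ _ (Finset.mem_univ i)]
    have h1 : v (x i) ^ (e i : ℕ) < v (x i) ^ (eS i : ℕ) := by
      rw [hei, heS i, if_neg hi, pow_zero]
      exact one_lt_pow₀ (hgt i hi) hd.ne'
    have h2 : ∏ j ∈ Finset.univ.erase i, v (x j) ^ (e j : ℕ) ≤
        ∏ j ∈ Finset.univ.erase i, v (x j) ^ (eS j : ℕ) :=
      Finset.prod_le_prod' (fun j _ => hmon e j)
    have h3 : 0 < ∏ j ∈ Finset.univ.erase i, v (x j) ^ (eS j : ℕ) :=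
      Finset.prod_induction _ (fun t => 0 < t) (fun a b ha hb => mul_pos ha hb) zero_lt_one
        (fun j _ => hpos j)
    calc _ ≤ v (x i) ^ (e i : ℕ) * ∏ j ∈ Finset.univ.erase i, v (x j) ^ (eS j : ℕ) := by
          gcongr
      _ < _ := by
          exact mul_lt_mul_of_pos_right h1 h3
  -- the leading coefficient
  have hSfilter : (Finset.univ : Finset (Finset (Fin k))).filter
      (fun T => T.card = (m : ℕ) ∧ expo lam T = eS) = {S} := by
    ext T
    simp only [Finset.mem_filter, Finset.mem_univ, true_and, Finset.mem_singleton]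
    constructor
    · rintro ⟨hT1, hT2⟩
      symm
      apply Finset.eq_of_subset_of_card_le
      · intro j hj
        simp only [S, Finset.mem_filter, Finset.mem_univ, true_and] at hj
        obtain ⟨i, hi, hx⟩ := hj
        by_contra hjT
        have h1 := congrFun hT2 i
        have h2 := heS i
        rw [← h1] at h2
        simp only [expo, hi, hjT, if_false, if_neg hx] at h2
        simp at h2
        omega
      · rw [hT1]
    · rintro rfl
      exact ⟨rfl, rfl⟩
  have hlead : (symC lam m eS : ℤ) = 1 := by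
    unfold symC
    rw [hSfilter]
    simp
  intro h0
  -- split off the leading term
  have hsum : (F m eS : ℂ) * ∏ i, x i ^ (eS i : ℕ) =
      - ∑ e ∈ Finset.univ.erase eS, (F m e : ℂ) * ∏ i, x i ^ (e i : ℕ) := by
    unfold evalP at h0
    rw [← Finset.add_sum_erase _ _ (Finset.mem_univ eS)] at h0
    linear_combination h0
  have hvl : v ((F m eS : ℂ) * ∏ i, x i ^ (eS i : ℕ)) = Bd := by
    rw [map_mul]
    have h1 : v (F m eS : ℂ) = 1 := by
      have h2 := hF m eS
      rw [hlead] at h2
      have h3 : (F m eS : ℂ) = 1 + ((F m eS - 1 : ℤ) : ℂ) := by push_cast; ring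
      rw [h3]
      have h4 := hvdvd _ h2
      have h5 := Valuation.map_add_eq_of_lt_right v (x := ((F m eS - 1 : ℤ) : ℂ)) (y := (1 : ℂ))
        (by rw [map_one]; exact h4)
      rw [add_comm, h5, map_one]
    rw [h1, one_mul, map_prod]
    simp only [map_pow]
    exact hBd.symm ▸ rfl
  have hvr : v (- ∑ e ∈ Finset.univ.erase eS, (F m e : ℂ) * ∏ i, x i ^ (e i : ℕ)) < Bd := by
    rw [Valuation.map_neg]
    apply Valuation.map_sum_lt _ hBdpos.ne'
    intro e he
    rw [Finset.mem_erase] at he
    rw [map_mul]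
    by_cases hsym : symC lam m e = 0
    · have h1 := hF m e
      rw [hsym, sub_zero] at h1
      have h2 := hvdvd _ h1
      calc v (F m e : ℂ) * v (∏ i, x i ^ (e i : ℕ)) ≤ v (F m e : ℂ) * Bd := by
            gcongr
            exact hterm e
        _ < 1 * Bd := mul_lt_mul_of_pos_right h2 hBdpos
        _ = Bd := one_mul _
    · have h1 : ((Finset.univ : Finset (Finset (Fin k))).filter
          (fun T => T.card = (m : ℕ) ∧ expo lam T = e)).Nonempty := by
        rw [Finset.nonempty_iff_ne_empty]
        intro h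
        apply hsym
        unfold symC
        rw [h]
        simp
      obtain ⟨T, hT⟩ := h1
      simp only [Finset.mem_filter, Finset.mem_univ, true_and] at hT
      obtain ⟨hT1, hT2⟩ := hT
      have hne : T ≠ S := by
        rintro rfl
        exact he.1 hT2.symm
      have hnsub : ¬ S ⊆ T := by
        intro hsub
        exact hne (Finset.eq_of_subset_of_card_le hsub (by rw [hT1])).symm
      obtain ⟨j, hjS, hjT⟩ := Finset.not_subset.1 hnsub
      simp only [S, Finset.mem_filter, Finset.mem_univ, true_and] at hjS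
      obtain ⟨i, hi, hx⟩ := hjS
      have h2 : v (∏ i, x i ^ (e i : ℕ)) < Bd := by
        apply hlt
        refine ⟨i, hx, ?_⟩
        rw [← hT2]
        simp [expo, hi, hjT]
      calc v (F m e : ℂ) * v (∏ i, x i ^ (e i : ℕ)) ≤ 1 * v (∏ i, x i ^ (e i : ℕ)) := by
            gcongr
            exact hvint _
        _ = v (∏ i, x i ^ (e i : ℕ)) := one_mul _
        _ < Bd := h2
  rw [hsum] at hvl
  exact absurd hvl hvr.ne

end H294ZP
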